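import Mathlib
import Pool.Agent.Helper304.LapTop

set_option autoImplicit false

namespace Pool.Agent.Results.MP_7afc88_an.LaplacianChainRule

open MeasureTheory Filter Topology
open scoped ContDiff NNReal RealInnerProductSpace

/-- `φ` is a test function on `Ω`: smooth with compact support contained in `Ω`. -/
structure IsTest {N : ℕ} (Ω : Set (EuclideanSpace ℝ (Fin N)))
    (φ : EuclideanSpace ℝ (Fin N) → ℝ) : Prop where
  smooth : ContDiff ℝ ∞ φ
  compactSupport : HasCompactSupport φ
  support_subset : tsupport φ ⊆ Ω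

/-- The distributional Laplacian of `v` on `Ω` is represented by the function `f`:
`∫_Ω v Δφ = ∫_Ω f φ` for every test function `φ`; here `Δφ` is Mathlib's Laplacian of the
smooth function `φ`. -/
def HasDistLaplacian {N : ℕ} (Ω : Set (EuclideanSpace ℝ (Fin N)))
    (v f : EuclideanSpace ℝ (Fin N) → ℝ) : Prop :=
  ∀ φ, IsTest Ω φ → ∫ x in Ω, v x * Laplacian.laplacian φ x = ∫ x in Ω, f x * φ x

/-- The vector field `G` is the weak gradient of `v` on `Ω`: it is locally integrable on `Ω` and
`∫_Ω v ∂_e φ = - ∫_Ω φ ⟨G, e⟩` for every test function `φ` and every direction `e`. -/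
def IsWeakGradient {N : ℕ} (Ω : Set (EuclideanSpace ℝ (Fin N)))
    (v : EuclideanSpace ℝ (Fin N) → ℝ)
    (G : EuclideanSpace ℝ (Fin N) → EuclideanSpace ℝ (Fin N)) : Prop :=
  LocallyIntegrableOn G Ω ∧ ∀ φ, IsTest Ω φ → ∀ e : EuclideanSpace ℝ (Fin N),
    ∫ x in Ω, v x * fderiv ℝ φ x e = - ∫ x in Ω, φ x * ⟪G x, e⟫

/-- The set of points at which `Φ'` exists. -/
def DiffSet (Φ : ℝ → ℝ) : Set ℝ := {t | DifferentiableAt ℝ Φ t}

/-- `Φ''(t)` exists: `Φ'` exists at `t`, and the function `Φ'`, defined on `DiffSet Φ`, is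
differentiable at `t`. -/
def HasSecondDeriv (Φ : ℝ → ℝ) (t : ℝ) : Prop :=
  DifferentiableAt ℝ Φ t ∧ DifferentiableWithinAt ℝ (deriv Φ) (DiffSet Φ) t

/-- `Φ''(t)`, the derivative at `t` of the function `Φ'` defined on `DiffSet Φ`. -/
noncomputable def secondDeriv (Φ : ℝ → ℝ) (t : ℝ) : ℝ := derivWithin (deriv Φ) (DiffSet Φ) t

open Classical in
/-- The first term `Φ'(t) a`, read as `0` if `a = 0`. -/
noncomputable def firstTerm (Φ : ℝ → ℝ) (t a : ℝ) : ℝ := if a = 0 then 0 else deriv Φ t * a

open Classical in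
/-- The second term `Φ''(t) |p|²`, read as `0` if `p = 0`. -/
noncomputable def secondTerm {N : ℕ} (Φ : ℝ → ℝ) (t : ℝ) (p : EuclideanSpace ℝ (Fin N)) : ℝ :=
  if p = 0 then 0 else secondDeriv Φ t * ‖p‖ ^ 2

/-- integrals over `Ω` against functions supported in `Ω` are integrals over the whole space -/
lemma set_int {N : ℕ} {Ω : Set (EuclideanSpace ℝ (Fin N))}
    {F : EuclideanSpace ℝ (Fin N) → ℝ} (h : ∀ x, x ∉ Ω → F x = 0) :
    ∫ x in Ω, F x = ∫ x, F x :=
  setIntegral_eq_integral_of_forall_compl_eq_zero h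

/-- finite sums of locally integrable functions -/
lemma li_sum {N : ℕ} {Ω : Set (EuclideanSpace ℝ (Fin N))} {ι : Type} (s : Finset ι)
    {F : ι → EuclideanSpace ℝ (Fin N) → EuclideanSpace ℝ (Fin N)}
    (h : ∀ i ∈ s, LocallyIntegrableOn (F i) Ω) :
    LocallyIntegrableOn (fun x => ∑ i ∈ s, F i x) Ω := by
  classical
  induction s using Finset.induction_on with
  | empty =>
    simp only [Finset.sum_empty]
    exact ((integrable_zero _ _ _).integrableOn (s := Ω)).locallyIntegrableOn
  | insert a s ha ih =>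
    simp only [Finset.sum_insert ha]
    exact (h a (Finset.mem_insert_self a s)).add
      (ih fun i hi => h i (Finset.mem_insert_of_mem hi))

/-- **Chain rule.**  Let `Ω ⊆ ℝ^N` be open, `Φ : ℝ → ℝ` convex and Lipschitz, `u ∈ L¹(Ω)`,
`Δu = f ∈ L¹(Ω)` and `ΔΦ(u) = g ∈ L¹(Ω)`.  Then `u` has a weak gradient on `Ω` and, for every
weak gradient `G` of `u`, at almost every `x ∈ Ω`: `Φ'(u(x))` exists if `f(x) ≠ 0`, `Φ''(u(x))`
exists if `G(x) ≠ 0`, and `g(x) = Φ'(u(x)) f(x) + Φ''(u(x)) |G(x)|²`, where each term is read as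
`0` if its second factor vanishes. -/
theorem result {N : ℕ} (hN : 1 ≤ N) {Ω : Set (EuclideanSpace ℝ (Fin N))} (hΩ : IsOpen Ω)
    {Φ : ℝ → ℝ} (hΦ : ConvexOn ℝ Set.univ Φ) {K : ℝ≥0} (hL : LipschitzWith K Φ)
    {u f g : EuclideanSpace ℝ (Fin N) → ℝ}
    (hu : IntegrableOn u Ω) (hf : IntegrableOn f Ω) (hg : IntegrableOn g Ω)
    (hΔu : HasDistLaplacian Ω u f) (hΔΦu : HasDistLaplacian Ω (fun x => Φ (u x)) g) :
    (∃ G, IsWeakGradient Ω u G) ∧
    ∀ G, IsWeakGradient Ω u G → ∀ᵐ x ∂(volume.restrict Ω),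
      (f x ≠ 0 → DifferentiableAt ℝ Φ (u x)) ∧
      (G x ≠ 0 → HasSecondDeriv Φ (u x)) ∧
      g x = firstTerm Φ (u x) (f x) + secondTerm Φ (u x) (G x) := by
  classical
  have hN' : 0 < N := hN
  -- measurable representatives
  set u0 := hu.aestronglyMeasurable.mk u with hu0
  set f0 := hf.aestronglyMeasurable.mk f with hf0
  have hu0m : Measurable u0 := hu.aestronglyMeasurable.measurable_mk
  have hf0m : Measurable f0 := hf.aestronglyMeasurable.measurable_mk
  have hue : u =ᵐ[volume.restrict Ω] u0 := hu.aestronglyMeasurable.ae_eq_mk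
  have hfe : f =ᵐ[volume.restrict Ω] f0 := hf.aestronglyMeasurable.ae_eq_mk
  have hu0i : IntegrableOn u0 Ω := hu.congr hue
  have hf0i : IntegrableOn f0 Ω := hf.congr hfe
  have hlap0 : ∀ φ : EuclideanSpace ℝ (Fin N) → ℝ, tsupport φ ⊆ Ω → ∀ x, x ∉ Ω →
      Helper304Lap.lap φ x = 0 := by
    intro φ hs x hx
    exact image_eq_zero_of_notMem_tsupport fun h => hx (hs (Helper304Lap.tsupport_lap h))
  -- the equation for `u0`
  have hwl : ∀ φ, Helper304Lap.Tst φ → tsupport φ ⊆ Ω →
      ∫ x, u0 x * Helper304Lap.lap φ x = ∫ x, f0 x * φ x := by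
    intro φ hφ hs
    have h1 := hΔu φ ⟨hφ.1, hφ.2, hs⟩
    have e1 : ∫ x in Ω, u x * Laplacian.laplacian φ x = ∫ x, u0 x * Helper304Lap.lap φ x := by
      rw [← set_int (Ω := Ω) (F := fun x => u0 x * Helper304Lap.lap φ x)
        (fun x hx => by simp [hlap0 φ hs x hx])]
      apply integral_congr_ae
      filter_upwards [hue] with x hx
      rw [hx, Helper304Lap.lap_eq hφ.1]
    have e2 : ∫ x in Ω, f x * φ x = ∫ x, f0 x * φ x := by
      rw [← set_int (Ω := Ω) (F := fun x => f0 x * φ x)
        (fun x hx => by simp [image_eq_zero_of_notMem_tsupport fun h => hx (hs h)])]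
      apply integral_congr_ae
      filter_upwards [hfe] with x hx
      rw [hx]
    rw [← e1, ← e2, h1]
  have hwlΦ : ∀ φ, Helper304Lap.Tst φ → tsupport φ ⊆ Ω →
      ∫ x, Φ (u0 x) * Helper304Lap.lap φ x = ∫ x, g x * φ x := by
    intro φ hφ hs
    have h1 := hΔΦu φ ⟨hφ.1, hφ.2, hs⟩
    have e1 : ∫ x in Ω, Φ (u x) * Laplacian.laplacian φ x =
        ∫ x, Φ (u0 x) * Helper304Lap.lap φ x := by
      rw [← set_int (Ω := Ω) (F := fun x => Φ (u0 x) * Helper304Lap.lap φ x)
        (fun x hx => by simp [hlap0 φ hs x hx])]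
      apply integral_congr_ae
      filter_upwards [hue] with x hx
      rw [hx, Helper304Lap.lap_eq hφ.1]
    have e2 : ∫ x in Ω, g x * φ x = ∫ x, g x * φ x :=
      set_int (fun x hx => by simp [image_eq_zero_of_notMem_tsupport fun h => hx (hs h)])
    rw [← e1, ← e2, h1]
  constructor
  · -- existence of the weak gradient
    obtain ⟨V, hV⟩ := Helper304Lap.exists_grad hN' hΩ hu0i.locallyIntegrableOn
      hf0i.locallyIntegrableOn hu0m hf0m hwl
    have hGx : ∀ x, (WithLp.toLp 2 (fun i => V i x) : EuclideanSpace ℝ (Fin N)) =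
        ∑ i, V i x • Helper304Lap.bv i := by
      intro x
      ext j
      simp [Helper304Lap.bv, Finset.sum_apply, Pi.single_apply]
    refine ⟨fun x => WithLp.toLp 2 (fun i => V i x), ?_, ?_⟩
    · simp only [hGx]
      apply li_sum
      intro i _ x hx
      obtain ⟨s, hs, hint⟩ := (hV i).1 x hx
      exact ⟨s, hs, hint.smul_const _⟩
    · intro φ hφ e
      have hT : Helper304Lap.Tst φ := ⟨hφ.1, hφ.2⟩
      have hs := hφ.3
      have he : ∀ x, fderiv ℝ φ x e = ∑ i, e i * Helper304Lap.pd i φ x := by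
        intro x
        have h1 : e = ∑ i, e i • Helper304Lap.bv i := by
          ext j
          simp [Helper304Lap.bv, Finset.sum_apply, Pi.single_apply]
        conv_lhs => rw [h1]
        rw [map_sum]
        simp [Helper304Lap.pd]
      have hin : ∀ x, ⟪(WithLp.toLp 2 (fun i => V i x) : EuclideanSpace ℝ (Fin N)), e⟫ =
          ∑ i, V i x * e i := by
        intro x
        simp [PiLp.inner_apply, mul_comm]
      have e1 : ∫ x in Ω, u x * fderiv ℝ φ x e =
          ∫ x, ∑ i, e i * (u0 x * Helper304Lap.pd i φ x) := by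
        rw [← set_int (Ω := Ω) (F := fun x => ∑ i, e i * (u0 x * Helper304Lap.pd i φ x))]
        · apply integral_congr_ae
          filter_upwards [hue] with x hx
          rw [hx, he, Finset.mul_sum]
          refine Finset.sum_congr rfl fun i _ => ?_
          ring
        · intro x hx
          refine Finset.sum_eq_zero fun i _ => ?_
          have : Helper304Lap.pd i φ x = 0 := image_eq_zero_of_notMem_tsupport
            fun h => hx (hs (Helper304Lap.tsupport_pd i h))
          simp [this]
      have e2 : ∫ x in Ω, φ x * ⟪(WithLp.toLp 2 (fun i => V i x) : EuclideanSpace ℝ (Fin N)), e⟫ =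
          ∫ x, ∑ i, e i * (V i x * φ x) := by
        rw [← set_int (Ω := Ω) (F := fun x => ∑ i, e i * (V i x * φ x))]
        · refine integral_congr_ae (Eventually.of_forall fun x => ?_)
          simp only [hin, Finset.mul_sum]
          refine Finset.sum_congr rfl fun i _ => ?_
          ring
        · intro x hx
          refine Finset.sum_eq_zero fun i _ => ?_
          have : φ x = 0 := image_eq_zero_of_notMem_tsupport fun h => hx (hs h)
          simp [this]
      rw [e1, e2, integral_finsetSum _ fun i _ => ?_, integral_finsetSum _ fun i _ => ?_,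
        ← Finset.sum_neg_distrib]
      · refine Finset.sum_congr rfl fun i _ => ?_
        rw [integral_const_mul, integral_const_mul, (hV i).2 φ hT hs]
        ring
      · exact (Helper304Lap.int_mul (hV i).1 hT hs).const_mul _
      · exact (Helper304Lap.int_mul hu0i.locallyIntegrableOn (hT.pd i)
          ((Helper304Lap.tsupport_pd i).trans hs)).const_mul _
  · intro G hG
    set V : Fin N → EuclideanSpace ℝ (Fin N) → ℝ := fun i x => G x i with hV
    have hVi : ∀ i, LocallyIntegrableOn (V i) Ω := by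
      intro i x hx
      obtain ⟨s, hs, hint⟩ := hG.1 x hx
      exact ⟨s, hs, (EuclideanSpace.proj (𝕜 := ℝ) i).integrable_comp hint⟩
    have D : Helper304Lap.Dat Ω u0 f0 V := by
      refine ⟨hΩ, hu0i.locallyIntegrableOn, hVi, hf0i.locallyIntegrableOn, ?_, hwl⟩
      intro i φ hφ hs
      have h1 := hG.2 φ ⟨hφ.1, hφ.2, hs⟩ (Helper304Lap.bv i)
      have e1 : ∫ x in Ω, u x * fderiv ℝ φ x (Helper304Lap.bv i) =
          ∫ x, u0 x * Helper304Lap.pd i φ x := by
        rw [← set_int (Ω := Ω) (F := fun x => u0 x * Helper304Lap.pd i φ x)]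
        · apply integral_congr_ae
          filter_upwards [hue] with x hx
          rw [hx]
          rfl
        · intro x hx
          have : Helper304Lap.pd i φ x = 0 := image_eq_zero_of_notMem_tsupport
            fun h => hx (hs (Helper304Lap.tsupport_pd i h))
          simp [this]
      have e2 : ∫ x in Ω, φ x * ⟪G x, Helper304Lap.bv i⟫ = ∫ x, V i x * φ x := by
        rw [← set_int (Ω := Ω) (F := fun x => V i x * φ x)]
        · refine integral_congr_ae (Eventually.of_forall fun x => ?_)
          simp [Helper304Lap.bv, EuclideanSpace.inner_single_right, hV, mul_comm]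
        · intro x hx
          have : φ x = 0 := image_eq_zero_of_notMem_tsupport fun h => hx (hs h)
          simp [this]
      rw [← e1, ← e2, h1]
    have main := Helper304Lap.chain_main hN' D hu0m hf0m hg.locallyIntegrableOn hΦ hL hwlΦ
    rw [Filter.EventuallyEq, ae_restrict_iff' hΩ.measurableSet] at hue hfe
    rw [ae_restrict_iff' hΩ.measurableSet]
    filter_upwards [main, hue, hfe] with x h1 h2 h3 hx
    obtain ⟨k1, k2, k3⟩ := h1 hx
    rw [← h2 hx, ← h3 hx] at k3
    rw [← h2 hx] at k2
    rw [← h2 hx, ← h3 hx] at k1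
    have hnorm : ‖G x‖ ^ 2 = ∑ i, V i x * V i x := by
      rw [EuclideanSpace.norm_sq_eq]
      refine Finset.sum_congr rfl fun i _ => ?_
      rw [Real.norm_eq_abs, sq_abs, sq]
    refine ⟨k1, ?_, ?_⟩
    · intro hGx
      apply k2
      by_contra hcon
      push Not at hcon
      apply hGx
      ext i
      exact hcon i
    · unfold firstTerm secondTerm secondDeriv DiffSet
      rw [k3, hnorm]
      congr 1
      · split_ifs with h
        · simp [h]
        · rfl
      · split_ifs with h
        · have : ∀ i, V i x = 0 := by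
            intro i
            simp [hV, h]
          simp [this]
        · rfl

end Pool.Agent.Results.MP_7afc88_an.LaplacianChainRule
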